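import Pool.Agent.Q250.Sand.Basic

set_option autoImplicit false

namespace Pool.Agent.Results.MP_f0ff61_co.SameSpectrum

open Pool.Agent.Q250.Sand

/-- The vector space `F_2^r`. -/
abbrev Vec (r : ℕ) : Type := Fin r → ZMod 2

/-- A generator multiset: a finite multiset of nonzero vectors spanning `F_2^r`. -/
def IsGenerator {r : ℕ} (M : Multiset (Vec r)) : Prop :=
  (0 : Vec r) ∉ M ∧ Submodule.span (ZMod 2) {v : Vec r | v ∈ M} = ⊤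

/-- The gcd of the positive multiplicities. -/
def multGcd {r : ℕ} (M : Multiset (Vec r)) : ℕ := M.toFinset.gcd fun v => M.count v

/-- The entries of the Laplacian of the Cayley graph: `L_{u,u} = n` and, for `u ≠ w`,
`L_{u,w} = -#{i : u + v_i = w}`. -/
def lapEntry {r : ℕ} (M : Multiset (Vec r)) (u w : Vec r) : ℤ :=
  if u = w then (Multiset.card M : ℤ) else -(Multiset.card (M.filter fun v => u + v = w) : ℤ)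

/-- The Laplacian matrix. -/
def laplacian {r : ℕ} (M : Multiset (Vec r)) : Matrix (Vec r) (Vec r) ℤ :=
  Matrix.of (lapEntry M)

/-- The sandpile group: the torsion subgroup of `ℤ^V / L ℤ^V`. -/
abbrev Sandpile {r : ℕ} (M : Multiset (Vec r)) : Type :=
  AddCommGroup.torsion ((Vec r → ℤ) ⧸ LinearMap.range (laplacian M).mulVecLin)

/-- The eigenvalue `λ_u = 2 #{i : u · v_i = 1}`. -/
def eigenvalue {r : ℕ} (M : Multiset (Vec r)) (u : Vec r) : ℕ :=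
  2 * Multiset.card (M.filter fun v => dotProduct u v = 1)

/-- The multiset of all eigenvalues of the Laplacian (with multiplicity). -/
def spectrum {r : ℕ} (M : Multiset (Vec r)) : Multiset ℕ :=
  (Finset.univ : Finset (Vec r)).val.map (eigenvalue M)

/-- The set of eigenvalues of the Laplacian. -/
def eigenvalueSet {r : ℕ} (M : Multiset (Vec r)) : Set ℕ := Set.range (eigenvalue M)

/-- First multiset. -/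
def M1 : Multiset (Vec 3) :=
  {![0, 1, 0], ![1, 1, 0], ![1, 1, 0], ![0, 0, 1], ![1, 0, 1], ![1, 0, 1], ![0, 1, 1],
    ![1, 1, 1], ![1, 1, 1]}

/-- Second multiset. -/
def M2 : Multiset (Vec 3) :=
  {![1, 0, 0], ![0, 1, 0], ![1, 1, 0], ![0, 0, 1], ![1, 0, 1], ![0, 1, 1],
    ![1, 1, 1], ![1, 1, 1], ![1, 1, 1]}

/-- Numbering of the vertices. -/
def vtx : Fin 8 ≃ Vec 3 where
  toFun i := ![((i.val % 2 : ℕ) : ZMod 2), ((i.val / 2 % 2 : ℕ) : ZMod 2),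
    ((i.val / 4 % 2 : ℕ) : ZMod 2)]
  invFun v := ⟨((v 0).val + 2 * (v 1).val + 4 * (v 2).val) % 8, Nat.mod_lt _ (by norm_num)⟩
  left_inv := by decide
  right_inv := by decide

/-- `i xor j` for vertices. -/
def m1 (k : ℕ) : ℤ := [9, 0, -1, -2, -1, -2, -1, -2].getD k 0

def m2 (k : ℕ) : ℤ := [9, -1, -1, -1, -1, -1, -1, -3].getD k 0

def L1 (i j : Fin 8) : ℤ := m1 (Nat.xor i j)

def L2 (i j : Fin 8) : ℤ := m2 (Nat.xor i j)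

lemma lap1 : ∀ i j, lapEntry M1 (vtx i) (vtx j) = L1 i j := by decide

lemma lap2 : ∀ i j, lapEntry M2 (vtx i) (vtx j) = L2 i j := by decide

lemma par (a : ℤ) : ∃ t : Fin 2, ∃ z : ℤ, a = ((t : ℕ) : ℤ) + 2 * z := by
  rcases Int.even_or_odd a with ⟨k, hk⟩ | ⟨k, hk⟩
  · exact ⟨0, k, by simp; omega⟩
  · exact ⟨1, k, by simp; omega⟩

/-- Half of the image of `∑ b_k Y_k`, where `Y_k` is the sum of two unit vectors. -/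
def Gc (k : Fin 5) (i : Fin 8) : ℤ :=
  (m1 (Nat.xor i ([2, 4, 1, 3, 5].getD k 0)) + m1 (Nat.xor i ([6, 6, 7, 7, 7].getD k 0))) / 2

def Gv (b : Fin 5 → Fin 2) (i : Fin 8) : ℤ := ∑ k, ((b k : ℕ) : ℤ) * Gc k i

/-- The `2`-torsion of the first cokernel is covered by `2 ^ 5` classes. -/
lemma cover (X y : Fin 8 → ℤ) (h : ∀ i, 2 * X i = ∑ j, L1 i j * y j) :
    ∃ (b : Fin 5 → Fin 2) (z : Fin 8 → ℤ), ∀ i, X i = Gv b i + ∑ j, L1 i j * z j := by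
  have h0 : 2 * X 0 = 9 * y 0 + 0 * y 1 + (-1) * y 2 + (-2) * y 3 + (-1) * y 4 + (-2) * y 5 + (-1) * y 6 + (-2) * y 7 := by
    rw [h 0, Fin.sum_univ_eight]; rfl
  have h1 : 2 * X 1 = 0 * y 0 + 9 * y 1 + (-2) * y 2 + (-1) * y 3 + (-2) * y 4 + (-1) * y 5 + (-2) * y 6 + (-1) * y 7 := by
    rw [h 1, Fin.sum_univ_eight]; rfl
  have h2 : 2 * X 2 = (-1) * y 0 + (-2) * y 1 + 9 * y 2 + 0 * y 3 + (-1) * y 4 + (-2) * y 5 + (-1) * y 6 + (-2) * y 7 := by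
    rw [h 2, Fin.sum_univ_eight]; rfl
  have h3 : 2 * X 3 = (-2) * y 0 + (-1) * y 1 + 0 * y 2 + 9 * y 3 + (-2) * y 4 + (-1) * y 5 + (-2) * y 6 + (-1) * y 7 := by
    rw [h 3, Fin.sum_univ_eight]; rfl
  have h4 : 2 * X 4 = (-1) * y 0 + (-2) * y 1 + (-1) * y 2 + (-2) * y 3 + 9 * y 4 + 0 * y 5 + (-1) * y 6 + (-2) * y 7 := by
    rw [h 4, Fin.sum_univ_eight]; rfl
  have h5 : 2 * X 5 = (-2) * y 0 + (-1) * y 1 + (-2) * y 2 + (-1) * y 3 + 0 * y 4 + 9 * y 5 + (-2) * y 6 + (-1) * y 7 := by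
    rw [h 5, Fin.sum_univ_eight]; rfl
  have h6 : 2 * X 6 = (-1) * y 0 + (-2) * y 1 + (-1) * y 2 + (-2) * y 3 + (-1) * y 4 + (-2) * y 5 + 9 * y 6 + 0 * y 7 := by
    rw [h 6, Fin.sum_univ_eight]; rfl
  have h7 : 2 * X 7 = (-2) * y 0 + (-1) * y 1 + (-2) * y 2 + (-1) * y 3 + (-2) * y 4 + (-1) * y 5 + 0 * y 6 + 9 * y 7 := by
    rw [h 7, Fin.sum_univ_eight]; rfl
  obtain ⟨t2, z2, e2⟩ := par (y 2 - y 0)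
  obtain ⟨t4, z4, e4⟩ := par (y 4 - y 0)
  obtain ⟨t1, z1, e1⟩ := par (y 1 - y 0)
  obtain ⟨t3, z3, e3⟩ := par (y 3 - y 0)
  obtain ⟨t5, z5, e5⟩ := par (y 5 - y 0)
  obtain ⟨z6, e6⟩ : ∃ z6 : ℤ, y 6 - y 0 = ((t2 : ℕ) : ℤ) + ((t4 : ℕ) : ℤ) + 2 * z6 :=
    ⟨(y 6 - y 0 - ((t2 : ℕ) : ℤ) - ((t4 : ℕ) : ℤ)) / 2, by omega⟩
  obtain ⟨z7, e7⟩ : ∃ z7 : ℤ, y 7 - y 0 = ((t1 : ℕ) : ℤ) + ((t3 : ℕ) : ℤ) + ((t5 : ℕ) : ℤ) + 2 * z7 :=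
    ⟨(y 7 - y 0 - ((t1 : ℕ) : ℤ) - ((t3 : ℕ) : ℤ) - ((t5 : ℕ) : ℤ)) / 2, by omega⟩
  refine ⟨![t2, t4, t1, t3, t5], ![0, z1, z2, z3, z4, z5, z6, z7], ?_⟩
  have c0 : X 0 = Gv ![t2, t4, t1, t3, t5] 0 + ∑ j, L1 0 j * (![0, z1, z2, z3, z4, z5, z6, z7] : Fin 8 → ℤ) j := by
    unfold Gv
    rw [Fin.sum_univ_eight, Fin.sum_univ_five]
    change X 0 = ((((t2 : Fin 2) : ℕ) : ℤ) * (-1) + (((t4 : Fin 2) : ℕ) : ℤ) * (-1) + (((t1 : Fin 2) : ℕ) : ℤ) * (-1) + (((t3 : Fin 2) : ℕ) : ℤ) * (-2) + (((t5 : Fin 2) : ℕ) : ℤ) * (-2)) + (9 * 0 + 0 * z1 + (-1) * z2 + (-2) * z3 + (-1) * z4 + (-2) * z5 + (-1) * z6 + (-2) * z7)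
    refine mul_left_cancel₀ (two_ne_zero (α := ℤ)) ?_
    linear_combination h0 + (0) * e1 + (-1) * e2 + (-2) * e3 + (-1) * e4 + (-2) * e5 + (-1) * e6 + (-2) * e7
  have c1 : X 1 = Gv ![t2, t4, t1, t3, t5] 1 + ∑ j, L1 1 j * (![0, z1, z2, z3, z4, z5, z6, z7] : Fin 8 → ℤ) j := by
    unfold Gv
    rw [Fin.sum_univ_eight, Fin.sum_univ_five]
    change X 1 = ((((t2 : Fin 2) : ℕ) : ℤ) * (-2) + (((t4 : Fin 2) : ℕ) : ℤ) * (-2) + (((t1 : Fin 2) : ℕ) : ℤ) * (4) + (((t3 : Fin 2) : ℕ) : ℤ) * (-1) + (((t5 : Fin 2) : ℕ) : ℤ) * (-1)) + (0 * 0 + 9 * z1 + (-2) * z2 + (-1) * z3 + (-2) * z4 + (-1) * z5 + (-2) * z6 + (-1) * z7)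
    refine mul_left_cancel₀ (two_ne_zero (α := ℤ)) ?_
    linear_combination h1 + (9) * e1 + (-2) * e2 + (-1) * e3 + (-2) * e4 + (-1) * e5 + (-2) * e6 + (-1) * e7
  have c2 : X 2 = Gv ![t2, t4, t1, t3, t5] 2 + ∑ j, L1 2 j * (![0, z1, z2, z3, z4, z5, z6, z7] : Fin 8 → ℤ) j := by
    unfold Gv
    rw [Fin.sum_univ_eight, Fin.sum_univ_five]
    change X 2 = ((((t2 : Fin 2) : ℕ) : ℤ) * (4) + (((t4 : Fin 2) : ℕ) : ℤ) * (-1) + (((t1 : Fin 2) : ℕ) : ℤ) * (-2) + (((t3 : Fin 2) : ℕ) : ℤ) * (-1) + (((t5 : Fin 2) : ℕ) : ℤ) * (-2)) + ((-1) * 0 + (-2) * z1 + 9 * z2 + 0 * z3 + (-1) * z4 + (-2) * z5 + (-1) * z6 + (-2) * z7)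
    refine mul_left_cancel₀ (two_ne_zero (α := ℤ)) ?_
    linear_combination h2 + (-2) * e1 + (9) * e2 + (0) * e3 + (-1) * e4 + (-2) * e5 + (-1) * e6 + (-2) * e7
  have c3 : X 3 = Gv ![t2, t4, t1, t3, t5] 3 + ∑ j, L1 3 j * (![0, z1, z2, z3, z4, z5, z6, z7] : Fin 8 → ℤ) j := by
    unfold Gv
    rw [Fin.sum_univ_eight, Fin.sum_univ_five]
    change X 3 = ((((t2 : Fin 2) : ℕ) : ℤ) * (-1) + (((t4 : Fin 2) : ℕ) : ℤ) * (-2) + (((t1 : Fin 2) : ℕ) : ℤ) * (-1) + (((t3 : Fin 2) : ℕ) : ℤ) * (4) + (((t5 : Fin 2) : ℕ) : ℤ) * (-1)) + ((-2) * 0 + (-1) * z1 + 0 * z2 + 9 * z3 + (-2) * z4 + (-1) * z5 + (-2) * z6 + (-1) * z7)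
    refine mul_left_cancel₀ (two_ne_zero (α := ℤ)) ?_
    linear_combination h3 + (-1) * e1 + (0) * e2 + (9) * e3 + (-2) * e4 + (-1) * e5 + (-2) * e6 + (-1) * e7
  have c4 : X 4 = Gv ![t2, t4, t1, t3, t5] 4 + ∑ j, L1 4 j * (![0, z1, z2, z3, z4, z5, z6, z7] : Fin 8 → ℤ) j := by
    unfold Gv
    rw [Fin.sum_univ_eight, Fin.sum_univ_five]
    change X 4 = ((((t2 : Fin 2) : ℕ) : ℤ) * (-1) + (((t4 : Fin 2) : ℕ) : ℤ) * (4) + (((t1 : Fin 2) : ℕ) : ℤ) * (-2) + (((t3 : Fin 2) : ℕ) : ℤ) * (-2) + (((t5 : Fin 2) : ℕ) : ℤ) * (-1)) + ((-1) * 0 + (-2) * z1 + (-1) * z2 + (-2) * z3 + 9 * z4 + 0 * z5 + (-1) * z6 + (-2) * z7)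
    refine mul_left_cancel₀ (two_ne_zero (α := ℤ)) ?_
    linear_combination h4 + (-2) * e1 + (-1) * e2 + (-2) * e3 + (9) * e4 + (0) * e5 + (-1) * e6 + (-2) * e7
  have c5 : X 5 = Gv ![t2, t4, t1, t3, t5] 5 + ∑ j, L1 5 j * (![0, z1, z2, z3, z4, z5, z6, z7] : Fin 8 → ℤ) j := by
    unfold Gv
    rw [Fin.sum_univ_eight, Fin.sum_univ_five]
    change X 5 = ((((t2 : Fin 2) : ℕ) : ℤ) * (-2) + (((t4 : Fin 2) : ℕ) : ℤ) * (-1) + (((t1 : Fin 2) : ℕ) : ℤ) * (-1) + (((t3 : Fin 2) : ℕ) : ℤ) * (-1) + (((t5 : Fin 2) : ℕ) : ℤ) * (4)) + ((-2) * 0 + (-1) * z1 + (-2) * z2 + (-1) * z3 + 0 * z4 + 9 * z5 + (-2) * z6 + (-1) * z7)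
    refine mul_left_cancel₀ (two_ne_zero (α := ℤ)) ?_
    linear_combination h5 + (-1) * e1 + (-2) * e2 + (-1) * e3 + (0) * e4 + (9) * e5 + (-2) * e6 + (-1) * e7
  have c6 : X 6 = Gv ![t2, t4, t1, t3, t5] 6 + ∑ j, L1 6 j * (![0, z1, z2, z3, z4, z5, z6, z7] : Fin 8 → ℤ) j := by
    unfold Gv
    rw [Fin.sum_univ_eight, Fin.sum_univ_five]
    change X 6 = ((((t2 : Fin 2) : ℕ) : ℤ) * (4) + (((t4 : Fin 2) : ℕ) : ℤ) * (4) + (((t1 : Fin 2) : ℕ) : ℤ) * (-1) + (((t3 : Fin 2) : ℕ) : ℤ) * (-1) + (((t5 : Fin 2) : ℕ) : ℤ) * (-1)) + ((-1) * 0 + (-2) * z1 + (-1) * z2 + (-2) * z3 + (-1) * z4 + (-2) * z5 + 9 * z6 + 0 * z7)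
    refine mul_left_cancel₀ (two_ne_zero (α := ℤ)) ?_
    linear_combination h6 + (-2) * e1 + (-1) * e2 + (-2) * e3 + (-1) * e4 + (-2) * e5 + (9) * e6 + (0) * e7
  have c7 : X 7 = Gv ![t2, t4, t1, t3, t5] 7 + ∑ j, L1 7 j * (![0, z1, z2, z3, z4, z5, z6, z7] : Fin 8 → ℤ) j := by
    unfold Gv
    rw [Fin.sum_univ_eight, Fin.sum_univ_five]
    change X 7 = ((((t2 : Fin 2) : ℕ) : ℤ) * (-1) + (((t4 : Fin 2) : ℕ) : ℤ) * (-1) + (((t1 : Fin 2) : ℕ) : ℤ) * (4) + (((t3 : Fin 2) : ℕ) : ℤ) * (4) + (((t5 : Fin 2) : ℕ) : ℤ) * (4)) + ((-2) * 0 + (-1) * z1 + (-2) * z2 + (-1) * z3 + (-2) * z4 + (-1) * z5 + 0 * z6 + 9 * z7)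
    refine mul_left_cancel₀ (two_ne_zero (α := ℤ)) ?_
    linear_combination h7 + (-1) * e1 + (-2) * e2 + (-1) * e3 + (-2) * e4 + (-1) * e5 + (0) * e6 + (9) * e7
  intro i
  fin_cases i
  · exact c0
  · exact c1
  · exact c2
  · exact c3
  · exact c4
  · exact c5
  · exact c6
  · exact c7

/-- Half of the image of the sum of the unit vectors at `k + 1` and at `7`. -/
def Hc (k : Fin 6) (i : Fin 8) : ℤ :=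
  (m2 (Nat.xor i (k + 1)) + m2 (Nat.xor i 7)) / 2

def Hv (b : Fin 6 → Fin 2) (i : Fin 8) : ℤ := ∑ k, ((b k : ℕ) : ℤ) * Hc k i

lemma two_Hv (b : Fin 6 → Fin 2) : ∃ z : Fin 8 → ℤ, ∀ i, 2 * Hv b i = ∑ j, L2 i j * z j := by
  refine ⟨![0, ((b 0 : ℕ) : ℤ), ((b 1 : ℕ) : ℤ), ((b 2 : ℕ) : ℤ), ((b 3 : ℕ) : ℤ), ((b 4 : ℕ) : ℤ), ((b 5 : ℕ) : ℤ), (((b 0 : ℕ) : ℤ) + ((b 1 : ℕ) : ℤ) + ((b 2 : ℕ) : ℤ) + ((b 3 : ℕ) : ℤ) + ((b 4 : ℕ) : ℤ) + ((b 5 : ℕ) : ℤ))], ?_⟩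
  have c0 : 2 * Hv b 0 = ∑ j, L2 0 j * (![0, ((b 0 : ℕ) : ℤ), ((b 1 : ℕ) : ℤ), ((b 2 : ℕ) : ℤ), ((b 3 : ℕ) : ℤ), ((b 4 : ℕ) : ℤ), ((b 5 : ℕ) : ℤ), (((b 0 : ℕ) : ℤ) + ((b 1 : ℕ) : ℤ) + ((b 2 : ℕ) : ℤ) + ((b 3 : ℕ) : ℤ) + ((b 4 : ℕ) : ℤ) + ((b 5 : ℕ) : ℤ))] : Fin 8 → ℤ) j := by
    unfold Hv
    rw [Fin.sum_univ_eight, Fin.sum_univ_six]
    change 2 * (((b 0 : ℕ) : ℤ) * (-2) + ((b 1 : ℕ) : ℤ) * (-2) + ((b 2 : ℕ) : ℤ) * (-2) + ((b 3 : ℕ) : ℤ) * (-2) + ((b 4 : ℕ) : ℤ) * (-2) + ((b 5 : ℕ) : ℤ) * (-2)) = 9 * 0 + (-1) * ((b 0 : ℕ) : ℤ) + (-1) * ((b 1 : ℕ) : ℤ) + (-1) * ((b 2 : ℕ) : ℤ) + (-1) * ((b 3 : ℕ) : ℤ) + (-1) * ((b 4 : ℕ) : ℤ) + (-1) * ((b 5 : ℕ) : ℤ) + (-3) * (((b 0 : ℕ) : ℤ) + ((b 1 : ℕ) : ℤ) + ((b 2 : ℕ) : ℤ) + ((b 3 : ℕ) : ℤ) + ((b 4 : ℕ) : ℤ) + ((b 5 : ℕ) : ℤ))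
    ring
  have c1 : 2 * Hv b 1 = ∑ j, L2 1 j * (![0, ((b 0 : ℕ) : ℤ), ((b 1 : ℕ) : ℤ), ((b 2 : ℕ) : ℤ), ((b 3 : ℕ) : ℤ), ((b 4 : ℕ) : ℤ), ((b 5 : ℕ) : ℤ), (((b 0 : ℕ) : ℤ) + ((b 1 : ℕ) : ℤ) + ((b 2 : ℕ) : ℤ) + ((b 3 : ℕ) : ℤ) + ((b 4 : ℕ) : ℤ) + ((b 5 : ℕ) : ℤ))] : Fin 8 → ℤ) j := by
    unfold Hv
    rw [Fin.sum_univ_eight, Fin.sum_univ_six]
    change 2 * (((b 0 : ℕ) : ℤ) * (4) + ((b 1 : ℕ) : ℤ) * (-1) + ((b 2 : ℕ) : ℤ) * (-1) + ((b 3 : ℕ) : ℤ) * (-1) + ((b 4 : ℕ) : ℤ) * (-1) + ((b 5 : ℕ) : ℤ) * (-2)) = (-1) * 0 + 9 * ((b 0 : ℕ) : ℤ) + (-1) * ((b 1 : ℕ) : ℤ) + (-1) * ((b 2 : ℕ) : ℤ) + (-1) * ((b 3 : ℕ) : ℤ) + (-1) * ((b 4 : ℕ) : ℤ) + (-3) * ((b 5 : ℕ) : ℤ) + (-1) * (((b 0 : ℕ) : ℤ) + ((b 1 : ℕ) : ℤ) + ((b 2 : ℕ) : ℤ) + ((b 3 : ℕ) : ℤ) + ((b 4 : ℕ) : ℤ) + ((b 5 : ℕ)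 : ℤ))
    ring
  have c2 : 2 * Hv b 2 = ∑ j, L2 2 j * (![0, ((b 0 : ℕ) : ℤ), ((b 1 : ℕ) : ℤ), ((b 2 : ℕ) : ℤ), ((b 3 : ℕ) : ℤ), ((b 4 : ℕ) : ℤ), ((b 5 : ℕ) : ℤ), (((b 0 : ℕ) : ℤ) + ((b 1 : ℕ) : ℤ) + ((b 2 : ℕ) : ℤ) + ((b 3 : ℕ) : ℤ) + ((b 4 : ℕ) : ℤ) + ((b 5 : ℕ) : ℤ))] : Fin 8 → ℤ) j := by
    unfold Hv
    rw [Fin.sum_univ_eight, Fin.sum_univ_six]
    change 2 * (((b 0 : ℕ) : ℤ) * (-1) + ((b 1 : ℕ) : ℤ) * (4) + ((b 2 : ℕ) : ℤ) * (-1) + ((b 3 : ℕ) : ℤ) * (-1) + ((b 4 : ℕ) : ℤ) * (-2) + ((b 5 : ℕ) : ℤ) * (-1)) = (-1) * 0 + (-1) * ((b 0 : ℕ) : ℤ) + 9 * ((b 1 : ℕ) : ℤ) + (-1) * ((b 2 : ℕ) : ℤ) + (-1) * ((b 3 : ℕ) : ℤ) + (-3) * ((b 4 : ℕ) : ℤ) + (-1) * ((b 5 : ℕ) : ℤ) + (-1) * (((b 0 : ℕ) : ℤ) + ((b 1 : ℕ) : ℤ) + ((b 2 : ℕ) : ℤ) + ((b 3 : ℕ) : ℤ) + ((b 4 : ℕ) : ℤ) + ((b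 5 : ℕ) : ℤ))
    ring
  have c3 : 2 * Hv b 3 = ∑ j, L2 3 j * (![0, ((b 0 : ℕ) : ℤ), ((b 1 : ℕ) : ℤ), ((b 2 : ℕ) : ℤ), ((b 3 : ℕ) : ℤ), ((b 4 : ℕ) : ℤ), ((b 5 : ℕ) : ℤ), (((b 0 : ℕ) : ℤ) + ((b 1 : ℕ) : ℤ) + ((b 2 : ℕ) : ℤ) + ((b 3 : ℕ) : ℤ) + ((b 4 : ℕ) : ℤ) + ((b 5 : ℕ) : ℤ))] : Fin 8 → ℤ) j := by
    unfold Hv
    rw [Fin.sum_univ_eight, Fin.sum_univ_six]
    change 2 * (((b 0 : ℕ) : ℤ) * (-1) + ((b 1 : ℕ) : ℤ) * (-1) + ((b 2 : ℕ) : ℤ) * (4) + ((b 3 : ℕ) : ℤ) * (-2) + ((b 4 : ℕ) : ℤ) * (-1) + ((b 5 : ℕ) : ℤ) * (-1)) = (-1) * 0 + (-1) * ((b 0 : ℕ) : ℤ) + (-1) * ((b 1 : ℕ) : ℤ) + 9 * ((b 2 : ℕ) : ℤ) + (-3) * ((b 3 : ℕ) : ℤ) + (-1) * ((b 4 : ℕ) : ℤ) + (-1) * ((b 5 : ℕ) : ℤ) + (-1) * (((b 0 : ℕ) : ℤ) + ((b 1 : ℕ) : ℤ) + ((b 2 : ℕ) : ℤ) + ((b 3 : ℕ) : ℤ) + ((b 4 : ℕ) : ℤ)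 + ((b 5 : ℕ) : ℤ))
    ring
  have c4 : 2 * Hv b 4 = ∑ j, L2 4 j * (![0, ((b 0 : ℕ) : ℤ), ((b 1 : ℕ) : ℤ), ((b 2 : ℕ) : ℤ), ((b 3 : ℕ) : ℤ), ((b 4 : ℕ) : ℤ), ((b 5 : ℕ) : ℤ), (((b 0 : ℕ) : ℤ) + ((b 1 : ℕ) : ℤ) + ((b 2 : ℕ) : ℤ) + ((b 3 : ℕ) : ℤ) + ((b 4 : ℕ) : ℤ) + ((b 5 : ℕ) : ℤ))] : Fin 8 → ℤ) j := by
    unfold Hv
    rw [Fin.sum_univ_eight, Fin.sum_univ_six]
    change 2 * (((b 0 : ℕ) : ℤ) * (-1) + ((b 1 : ℕ) : ℤ) * (-1) + ((b 2 : ℕ) : ℤ) * (-2) + ((b 3 : ℕ) : ℤ) * (4) + ((b 4 : ℕ) : ℤ) * (-1) + ((b 5 : ℕ) : ℤ) * (-1)) = (-1) * 0 + (-1) * ((b 0 : ℕ) : ℤ) + (-1) * ((b 1 : ℕ) : ℤ) + (-3) * ((b 2 : ℕ) : ℤ) + 9 * ((b 3 : ℕ) : ℤ) + (-1) * ((b 4 : ℕ) : ℤ) + (-1) * ((b 5 : ℕ) : ℤ) + (-1) * (((b 0 : ℕ) : ℤ) + ((b 1 : ℕ) : ℤ) + ((b 2 : ℕ) : ℤ) + ((b 3 : ℕ) : ℤ) + ((b 4 :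 ℕ) : ℤ) + ((b 5 : ℕ) : ℤ))
    ring
  have c5 : 2 * Hv b 5 = ∑ j, L2 5 j * (![0, ((b 0 : ℕ) : ℤ), ((b 1 : ℕ) : ℤ), ((b 2 : ℕ) : ℤ), ((b 3 : ℕ) : ℤ), ((b 4 : ℕ) : ℤ), ((b 5 : ℕ) : ℤ), (((b 0 : ℕ) : ℤ) + ((b 1 : ℕ) : ℤ) + ((b 2 : ℕ) : ℤ) + ((b 3 : ℕ) : ℤ) + ((b 4 : ℕ) : ℤ) + ((b 5 : ℕ) : ℤ))] : Fin 8 → ℤ) j := by
    unfold Hv
    rw [Fin.sum_univ_eight, Fin.sum_univ_six]
    change 2 * (((b 0 : ℕ) : ℤ) * (-1) + ((b 1 : ℕ) : ℤ) * (-2) + ((b 2 : ℕ) : ℤ) * (-1) + ((b 3 : ℕ) : ℤ) * (-1) + ((b 4 : ℕ) : ℤ) * (4) + ((b 5 : ℕ) : ℤ) * (-1)) = (-1) * 0 + (-1) * ((b 0 : ℕ) : ℤ) + (-3) * ((b 1 : ℕ) : ℤ) + (-1) * ((b 2 : ℕ) : ℤ) + (-1) * ((b 3 : ℕ) : ℤ) + 9 * ((b 4 : ℕ) : ℤ) + (-1) * ((b 5 : ℕ) : ℤ) + (-1) * (((b 0 : ℕ) : ℤ) + ((b 1 : ℕ) : ℤ) + ((b 2 : ℕ) : ℤ) + ((b 3 : ℕ) : ℤ) +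 ((b 4 : ℕ) : ℤ) + ((b 5 : ℕ) : ℤ))
    ring
  have c6 : 2 * Hv b 6 = ∑ j, L2 6 j * (![0, ((b 0 : ℕ) : ℤ), ((b 1 : ℕ) : ℤ), ((b 2 : ℕ) : ℤ), ((b 3 : ℕ) : ℤ), ((b 4 : ℕ) : ℤ), ((b 5 : ℕ) : ℤ), (((b 0 : ℕ) : ℤ) + ((b 1 : ℕ) : ℤ) + ((b 2 : ℕ) : ℤ) + ((b 3 : ℕ) : ℤ) + ((b 4 : ℕ) : ℤ) + ((b 5 : ℕ) : ℤ))] : Fin 8 → ℤ) j := by
    unfold Hv
    rw [Fin.sum_univ_eight, Fin.sum_univ_six]
    change 2 * (((b 0 : ℕ) : ℤ) * (-2) + ((b 1 : ℕ) : ℤ) * (-1) + ((b 2 : ℕ) : ℤ) * (-1) + ((b 3 : ℕ) : ℤ) * (-1) + ((b 4 : ℕ) : ℤ) * (-1) + ((b 5 : ℕ) : ℤ) * (4)) = (-1) * 0 + (-3) * ((b 0 : ℕ) : ℤ) + (-1) * ((b 1 : ℕ) : ℤ) + (-1) * ((b 2 : ℕ) : ℤ) + (-1) * ((b 3 : ℕ) : ℤ) + (-1) * ((b 4 : ℕ) : ℤ) + 9 * ((b 5 : ℕ) : ℤ) + (-1) * (((b 0 : ℕ) : ℤ) + ((b 1 : ℕ) : ℤ) + ((b 2 : ℕ) : ℤ) + ((b 3 : ℕ)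 : ℤ) + ((b 4 : ℕ) : ℤ) + ((b 5 : ℕ) : ℤ))
    ring
  have c7 : 2 * Hv b 7 = ∑ j, L2 7 j * (![0, ((b 0 : ℕ) : ℤ), ((b 1 : ℕ) : ℤ), ((b 2 : ℕ) : ℤ), ((b 3 : ℕ) : ℤ), ((b 4 : ℕ) : ℤ), ((b 5 : ℕ) : ℤ), (((b 0 : ℕ) : ℤ) + ((b 1 : ℕ) : ℤ) + ((b 2 : ℕ) : ℤ) + ((b 3 : ℕ) : ℤ) + ((b 4 : ℕ) : ℤ) + ((b 5 : ℕ) : ℤ))] : Fin 8 → ℤ) j := by
    unfold Hv
    rw [Fin.sum_univ_eight, Fin.sum_univ_six]
    change 2 * (((b 0 : ℕ) : ℤ) * (4) + ((b 1 : ℕ) : ℤ) * (4) + ((b 2 : ℕ) : ℤ) * (4) + ((b 3 : ℕ) : ℤ) * (4) + ((b 4 : ℕ) : ℤ) * (4) + ((b 5 : ℕ) : ℤ) * (4)) = (-3) * 0 + (-1) * ((b 0 : ℕ) : ℤ) + (-1) * ((b 1 : ℕ) : ℤ) + (-1) * ((b 2 : ℕ) : ℤ) + (-1) * ((b 3 : ℕ) : ℤ) + (-1) * ((b 4 : ℕ) : ℤ) + (-1) * ((b 5 : ℕ) : ℤ) + 9 * (((b 0 : ℕ) : ℤ) + ((b 1 : ℕ) : ℤ) + ((b 2 : ℕ) : ℤ) + ((b 3 :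 ℕ) : ℤ) + ((b 4 : ℕ) : ℤ) + ((b 5 : ℕ) : ℤ))
    ring
  intro i
  fin_cases i
  · exact c0
  · exact c1
  · exact c2
  · exact c3
  · exact c4
  · exact c5
  · exact c6
  · exact c7

lemma Hv_inj (b c : Fin 6 → Fin 2) (z : Fin 8 → ℤ)
    (h : ∀ i, Hv b i - Hv c i = ∑ j, L2 i j * z j) : b = c := by
  have h0 : (((b 0 : ℕ) : ℤ) * (-2) + ((b 1 : ℕ) : ℤ) * (-2) + ((b 2 : ℕ) : ℤ) * (-2) + ((b 3 : ℕ) : ℤ) * (-2) + ((b 4 : ℕ) : ℤ) * (-2) + ((b 5 : ℕ) : ℤ) * (-2)) - (((c 0 : ℕ) : ℤ) * (-2) + ((c 1 : ℕ) : ℤ) * (-2) + ((c 2 : ℕ) : ℤ) * (-2) + ((c 3 : ℕ) : ℤ) * (-2) + ((c 4 : ℕ) : ℤ) * (-2) + ((c 5 : ℕ) : ℤ) * (-2)) = 9 * z 0 + (-1) * z 1 + (-1) * z 2 + (-1) * z 3 + (-1) * z 4 + (-1) * z 5 + (-1) * z 6 + (-3) * z 7 := by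
    have := h 0
    unfold Hv at this
    rw [Fin.sum_univ_eight, Fin.sum_univ_six, Fin.sum_univ_six] at this
    exact this
  have h1 : (((b 0 : ℕ) : ℤ) * (4) + ((b 1 : ℕ) : ℤ) * (-1) + ((b 2 : ℕ) : ℤ) * (-1) + ((b 3 : ℕ) : ℤ) * (-1) + ((b 4 : ℕ) : ℤ) * (-1) + ((b 5 : ℕ) : ℤ) * (-2)) - (((c 0 : ℕ) : ℤ) * (4) + ((c 1 : ℕ) : ℤ) * (-1) + ((c 2 : ℕ) : ℤ) * (-1) + ((c 3 : ℕ) : ℤ) * (-1) + ((c 4 : ℕ) : ℤ) * (-1) + ((c 5 : ℕ) : ℤ) * (-2)) = (-1) * z 0 + 9 * z 1 + (-1) * z 2 + (-1) * z 3 + (-1) * z 4 + (-1) * z 5 + (-3) * z 6 + (-1) * z 7 := by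
    have := h 1
    unfold Hv at this
    rw [Fin.sum_univ_eight, Fin.sum_univ_six, Fin.sum_univ_six] at this
    exact this
  have h2 : (((b 0 : ℕ) : ℤ) * (-1) + ((b 1 : ℕ) : ℤ) * (4) + ((b 2 : ℕ) : ℤ) * (-1) + ((b 3 : ℕ) : ℤ) * (-1) + ((b 4 : ℕ) : ℤ) * (-2) + ((b 5 : ℕ) : ℤ) * (-1)) - (((c 0 : ℕ) : ℤ) * (-1) + ((c 1 : ℕ) : ℤ) * (4) + ((c 2 : ℕ) : ℤ) * (-1) + ((c 3 : ℕ) : ℤ) * (-1) + ((c 4 : ℕ) : ℤ) * (-2) + ((c 5 : ℕ) : ℤ) * (-1)) = (-1) * z 0 + (-1) * z 1 + 9 * z 2 + (-1) * z 3 + (-1) * z 4 + (-3) * z 5 + (-1) * z 6 + (-1) * z 7 := by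
    have := h 2
    unfold Hv at this
    rw [Fin.sum_univ_eight, Fin.sum_univ_six, Fin.sum_univ_six] at this
    exact this
  have h3 : (((b 0 : ℕ) : ℤ) * (-1) + ((b 1 : ℕ) : ℤ) * (-1) + ((b 2 : ℕ) : ℤ) * (4) + ((b 3 : ℕ) : ℤ) * (-2) + ((b 4 : ℕ) : ℤ) * (-1) + ((b 5 : ℕ) : ℤ) * (-1)) - (((c 0 : ℕ) : ℤ) * (-1) + ((c 1 : ℕ) : ℤ) * (-1) + ((c 2 : ℕ) : ℤ) * (4) + ((c 3 : ℕ) : ℤ) * (-2) + ((c 4 : ℕ) : ℤ) * (-1) + ((c 5 : ℕ) : ℤ) * (-1)) = (-1) * z 0 + (-1) * z 1 + (-1) * z 2 + 9 * z 3 + (-3) * z 4 + (-1) * z 5 + (-1) * z 6 + (-1) * z 7 := by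
    have := h 3
    unfold Hv at this
    rw [Fin.sum_univ_eight, Fin.sum_univ_six, Fin.sum_univ_six] at this
    exact this
  have h4 : (((b 0 : ℕ) : ℤ) * (-1) + ((b 1 : ℕ) : ℤ) * (-1) + ((b 2 : ℕ) : ℤ) * (-2) + ((b 3 : ℕ) : ℤ) * (4) + ((b 4 : ℕ) : ℤ) * (-1) + ((b 5 : ℕ) : ℤ) * (-1)) - (((c 0 : ℕ) : ℤ) * (-1) + ((c 1 : ℕ) : ℤ) * (-1) + ((c 2 : ℕ) : ℤ) * (-2) + ((c 3 : ℕ) : ℤ) * (4) + ((c 4 : ℕ) : ℤ) * (-1) + ((c 5 : ℕ) : ℤ) * (-1)) = (-1) * z 0 + (-1) * z 1 + (-1) * z 2 + (-3) * z 3 + 9 * z 4 + (-1) * z 5 + (-1) * z 6 + (-1) * z 7 := by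
    have := h 4
    unfold Hv at this
    rw [Fin.sum_univ_eight, Fin.sum_univ_six, Fin.sum_univ_six] at this
    exact this
  have h5 : (((b 0 : ℕ) : ℤ) * (-1) + ((b 1 : ℕ) : ℤ) * (-2) + ((b 2 : ℕ) : ℤ) * (-1) + ((b 3 : ℕ) : ℤ) * (-1) + ((b 4 : ℕ) : ℤ) * (4) + ((b 5 : ℕ) : ℤ) * (-1)) - (((c 0 : ℕ) : ℤ) * (-1) + ((c 1 : ℕ) : ℤ) * (-2) + ((c 2 : ℕ) : ℤ) * (-1) + ((c 3 : ℕ) : ℤ) * (-1) + ((c 4 : ℕ) : ℤ) * (4) + ((c 5 : ℕ) : ℤ) * (-1)) = (-1) * z 0 + (-1) * z 1 + (-3) * z 2 + (-1) * z 3 + (-1) * z 4 + 9 * z 5 + (-1) * z 6 + (-1) * z 7 := by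
    have := h 5
    unfold Hv at this
    rw [Fin.sum_univ_eight, Fin.sum_univ_six, Fin.sum_univ_six] at this
    exact this
  have h6 : (((b 0 : ℕ) : ℤ) * (-2) + ((b 1 : ℕ) : ℤ) * (-1) + ((b 2 : ℕ) : ℤ) * (-1) + ((b 3 : ℕ) : ℤ) * (-1) + ((b 4 : ℕ) : ℤ) * (-1) + ((b 5 : ℕ) : ℤ) * (4)) - (((c 0 : ℕ) : ℤ) * (-2) + ((c 1 : ℕ) : ℤ) * (-1) + ((c 2 : ℕ) : ℤ) * (-1) + ((c 3 : ℕ) : ℤ) * (-1) + ((c 4 : ℕ) : ℤ) * (-1) + ((c 5 : ℕ) : ℤ) * (4)) = (-1) * z 0 + (-3) * z 1 + (-1) * z 2 + (-1) * z 3 + (-1) * z 4 + (-1) * z 5 + 9 * z 6 + (-1) * z 7 := by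
    have := h 6
    unfold Hv at this
    rw [Fin.sum_univ_eight, Fin.sum_univ_six, Fin.sum_univ_six] at this
    exact this
  have h7 : (((b 0 : ℕ) : ℤ) * (4) + ((b 1 : ℕ) : ℤ) * (4) + ((b 2 : ℕ) : ℤ) * (4) + ((b 3 : ℕ) : ℤ) * (4) + ((b 4 : ℕ) : ℤ) * (4) + ((b 5 : ℕ) : ℤ) * (4)) - (((c 0 : ℕ) : ℤ) * (4) + ((c 1 : ℕ) : ℤ) * (4) + ((c 2 : ℕ) : ℤ) * (4) + ((c 3 : ℕ) : ℤ) * (4) + ((c 4 : ℕ) : ℤ) * (4) + ((c 5 : ℕ) : ℤ) * (4)) = (-3) * z 0 + (-1) * z 1 + (-1) * z 2 + (-1) * z 3 + (-1) * z 4 + (-1) * z 5 + (-1) * z 6 + 9 * z 7 := by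
    have := h 7
    unfold Hv at this
    rw [Fin.sum_univ_eight, Fin.sum_univ_six, Fin.sum_univ_six] at this
    exact this
  obtain ⟨w0, g0⟩ : ∃ w : ℤ, w = - 2 * z 0 := ⟨_, rfl⟩
  obtain ⟨w1, g1⟩ : ∃ w : ℤ, w = ((b 0 : ℕ) : ℤ) - ((c 0 : ℕ) : ℤ) - 2 * z 1 := ⟨_, rfl⟩
  obtain ⟨w2, g2⟩ : ∃ w : ℤ, w = ((b 1 : ℕ) : ℤ) - ((c 1 : ℕ) : ℤ) - 2 * z 2 := ⟨_, rfl⟩
  obtain ⟨w3, g3⟩ : ∃ w : ℤ, w = ((b 2 : ℕ) : ℤ) - ((c 2 : ℕ) : ℤ) - 2 * z 3 := ⟨_, rfl⟩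
  obtain ⟨w4, g4⟩ : ∃ w : ℤ, w = ((b 3 : ℕ) : ℤ) - ((c 3 : ℕ) : ℤ) - 2 * z 4 := ⟨_, rfl⟩
  obtain ⟨w5, g5⟩ : ∃ w : ℤ, w = ((b 4 : ℕ) : ℤ) - ((c 4 : ℕ) : ℤ) - 2 * z 5 := ⟨_, rfl⟩
  obtain ⟨w6, g6⟩ : ∃ w : ℤ, w = ((b 5 : ℕ) : ℤ) - ((c 5 : ℕ) : ℤ) - 2 * z 6 := ⟨_, rfl⟩
  obtain ⟨w7, g7⟩ : ∃ w : ℤ, w = (((b 0 : ℕ) : ℤ) - ((c 0 : ℕ) : ℤ)) + (((b 1 : ℕ) : ℤ) - ((c 1 : ℕ) : ℤ)) + (((b 2 : ℕ) : ℤ) - ((c 2 : ℕ) : ℤ)) + (((b 3 : ℕ) : ℤ) - ((c 3 : ℕ) : ℤ)) + (((b 4 : ℕ) : ℤ) - ((c 4 : ℕ) : ℤ)) + (((b 5 : ℕ) : ℤ) - ((c 5 : ℕ) : ℤ)) - 2 * z 7 := ⟨_, rfl⟩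
  have k0 : 9 * w0 + (-1) * w1 + (-1) * w2 + (-1) * w3 + (-1) * w4 + (-1) * w5 + (-1) * w6 + (-3) * w7 = 0 := by linear_combination 2 * h0 + (9) * g0 + (-1) * g1 + (-1) * g2 + (-1) * g3 + (-1) * g4 + (-1) * g5 + (-1) * g6 + (-3) * g7
  have k1 : (-1) * w0 + 9 * w1 + (-1) * w2 + (-1) * w3 + (-1) * w4 + (-1) * w5 + (-3) * w6 + (-1) * w7 = 0 := by linear_combination 2 * h1 + (-1) * g0 + (9) * g1 + (-1) * g2 + (-1) * g3 + (-1) * g4 + (-1) * g5 + (-3) * g6 + (-1) * g7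
  have k2 : (-1) * w0 + (-1) * w1 + 9 * w2 + (-1) * w3 + (-1) * w4 + (-3) * w5 + (-1) * w6 + (-1) * w7 = 0 := by linear_combination 2 * h2 + (-1) * g0 + (-1) * g1 + (9) * g2 + (-1) * g3 + (-1) * g4 + (-3) * g5 + (-1) * g6 + (-1) * g7
  have k3 : (-1) * w0 + (-1) * w1 + (-1) * w2 + 9 * w3 + (-3) * w4 + (-1) * w5 + (-1) * w6 + (-1) * w7 = 0 := by linear_combination 2 * h3 + (-1) * g0 + (-1) * g1 + (-1) * g2 + (9) * g3 + (-3) * g4 + (-1) * g5 + (-1) * g6 + (-1) * g7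
  have k4 : (-1) * w0 + (-1) * w1 + (-1) * w2 + (-3) * w3 + 9 * w4 + (-1) * w5 + (-1) * w6 + (-1) * w7 = 0 := by linear_combination 2 * h4 + (-1) * g0 + (-1) * g1 + (-1) * g2 + (-3) * g3 + (9) * g4 + (-1) * g5 + (-1) * g6 + (-1) * g7
  have k5 : (-1) * w0 + (-1) * w1 + (-3) * w2 + (-1) * w3 + (-1) * w4 + 9 * w5 + (-1) * w6 + (-1) * w7 = 0 := by linear_combination 2 * h5 + (-1) * g0 + (-1) * g1 + (-3) * g2 + (-1) * g3 + (-1) * g4 + (9) * g5 + (-1) * g6 + (-1) * g7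
  have k6 : (-1) * w0 + (-3) * w1 + (-1) * w2 + (-1) * w3 + (-1) * w4 + (-1) * w5 + 9 * w6 + (-1) * w7 = 0 := by linear_combination 2 * h6 + (-1) * g0 + (-3) * g1 + (-1) * g2 + (-1) * g3 + (-1) * g4 + (-1) * g5 + (9) * g6 + (-1) * g7
  have k7 : (-3) * w0 + (-1) * w1 + (-1) * w2 + (-1) * w3 + (-1) * w4 + (-1) * w5 + (-1) * w6 + 9 * w7 = 0 := by linear_combination 2 * h7 + (-3) * g0 + (-1) * g1 + (-1) * g2 + (-1) * g3 + (-1) * g4 + (-1) * g5 + (-1) * g6 + (9) * g7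
  have q1 : w1 = w0 := by linarith only [k0, k1, k2, k3, k4, k5, k6, k7]
  have q2 : w2 = w0 := by linarith only [k0, k1, k2, k3, k4, k5, k6, k7]
  have q3 : w3 = w0 := by linarith only [k0, k1, k2, k3, k4, k5, k6, k7]
  have q4 : w4 = w0 := by linarith only [k0, k1, k2, k3, k4, k5, k6, k7]
  have q5 : w5 = w0 := by linarith only [k0, k1, k2, k3, k4, k5, k6, k7]
  have q6 : w6 = w0 := by linarith only [k0, k1, k2, k3, k4, k5, k6, k7]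
  funext k
  fin_cases k
  · have hb := (b 0).isLt
    have hc := (c 0).isLt
    have hq := q1
    rw [g1, g0] at hq
    clear h0 h1 h2 h3 h4 h5 h6 h7 k0 k1 k2 k3 k4 k5 k6 k7 h q1 q2 q3 q4 q5 q6 g0 g1 g2 g3 g4 g5 g6 g7
    apply Fin.ext
    change ((b 0 : ℕ)) = (c 0 : ℕ)
    omega
  · have hb := (b 1).isLt
    have hc := (c 1).isLt
    have hq := q2
    rw [g2, g0] at hq
    clear h0 h1 h2 h3 h4 h5 h6 h7 k0 k1 k2 k3 k4 k5 k6 k7 h q1 q2 q3 q4 q5 q6 g0 g1 g2 g3 g4 g5 g6 g7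
    apply Fin.ext
    change ((b 1 : ℕ)) = (c 1 : ℕ)
    omega
  · have hb := (b 2).isLt
    have hc := (c 2).isLt
    have hq := q3
    rw [g3, g0] at hq
    clear h0 h1 h2 h3 h4 h5 h6 h7 k0 k1 k2 k3 k4 k5 k6 k7 h q1 q2 q3 q4 q5 q6 g0 g1 g2 g3 g4 g5 g6 g7
    apply Fin.ext
    change ((b 2 : ℕ)) = (c 2 : ℕ)
    omega
  · have hb := (b 3).isLt
    have hc := (c 3).isLt
    have hq := q4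
    rw [g4, g0] at hq
    clear h0 h1 h2 h3 h4 h5 h6 h7 k0 k1 k2 k3 k4 k5 k6 k7 h q1 q2 q3 q4 q5 q6 g0 g1 g2 g3 g4 g5 g6 g7
    apply Fin.ext
    change ((b 3 : ℕ)) = (c 3 : ℕ)
    omega
  · have hb := (b 4).isLt
    have hc := (c 4).isLt
    have hq := q5
    rw [g5, g0] at hq
    clear h0 h1 h2 h3 h4 h5 h6 h7 k0 k1 k2 k3 k4 k5 k6 k7 h q1 q2 q3 q4 q5 q6 g0 g1 g2 g3 g4 g5 g6 g7
    apply Fin.ext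
    change ((b 4 : ℕ)) = (c 4 : ℕ)
    omega
  · have hb := (b 5).isLt
    have hc := (c 5).isLt
    have hq := q6
    rw [g6, g0] at hq
    clear h0 h1 h2 h3 h4 h5 h6 h7 k0 k1 k2 k3 k4 k5 k6 k7 h q1 q2 q3 q4 q5 q6 g0 g1 g2 g3 g4 g5 g6 g7
    apply Fin.ext
    change ((b 5 : ℕ)) = (c 5 : ℕ)
    omega

lemma gen1 : IsGenerator M1 := by
  refine ⟨by decide, ?_⟩
  rw [Submodule.eq_top_iff']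
  intro v
  have a1 : (![0, 1, 0] : Vec 3) ∈ Submodule.span (ZMod 2) {v : Vec 3 | v ∈ M1} :=
    Submodule.subset_span (by decide)
  have a2 : (![0, 0, 1] : Vec 3) ∈ Submodule.span (ZMod 2) {v : Vec 3 | v ∈ M1} :=
    Submodule.subset_span (by decide)
  have a3 : (![1, 1, 0] : Vec 3) ∈ Submodule.span (ZMod 2) {v : Vec 3 | v ∈ M1} :=
    Submodule.subset_span (by decide)
  have e : v = v 0 • (![1, 1, 0] : Vec 3) + (v 1 - v 0) • (![0, 1, 0] : Vec 3) +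
      v 2 • (![0, 0, 1] : Vec 3) := by
    revert v; decide
  rw [e]
  exact Submodule.add_mem _ (Submodule.add_mem _ (Submodule.smul_mem _ _ a3)
    (Submodule.smul_mem _ _ a1)) (Submodule.smul_mem _ _ a2)

lemma gen2 : IsGenerator M2 := by
  refine ⟨by decide, ?_⟩
  rw [Submodule.eq_top_iff']
  intro v
  have a1 : (![0, 1, 0] : Vec 3) ∈ Submodule.span (ZMod 2) {v : Vec 3 | v ∈ M2} :=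
    Submodule.subset_span (by decide)
  have a2 : (![0, 0, 1] : Vec 3) ∈ Submodule.span (ZMod 2) {v : Vec 3 | v ∈ M2} :=
    Submodule.subset_span (by decide)
  have a3 : (![1, 1, 0] : Vec 3) ∈ Submodule.span (ZMod 2) {v : Vec 3 | v ∈ M2} :=
    Submodule.subset_span (by decide)
  have e : v = v 0 • (![1, 1, 0] : Vec 3) + (v 1 - v 0) • (![0, 1, 0] : Vec 3) +
      v 2 • (![0, 0, 1] : Vec 3) := by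
    revert v; decide
  rw [e]
  exact Submodule.add_mem _ (Submodule.add_mem _ (Submodule.smul_mem _ _ a3)
    (Submodule.smul_mem _ _ a1)) (Submodule.smul_mem _ _ a2)

lemma gcd1 : multGcd M1 = 1 := by decide

lemma gcd2 : multGcd M2 = 1 := by decide

lemma spec : spectrum M1 = spectrum M2 := by decide

lemma evset : eigenvalueSet M1 = eigenvalueSet M2 := by
  ext x
  have h : x ∈ spectrum M1 ↔ x ∈ spectrum M2 := by rw [spec]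
  simpa [spectrum, eigenvalueSet] using h

lemma not_iso : ¬ Nonempty (Sandpile M1 ≃+ Sandpile M2) := by
  rintro ⟨e⟩
  obtain ⟨f1⟩ := coker_reindex vtx (laplacian M1) (Matrix.of L1) (fun i j => lap1 i j)
  obtain ⟨f2⟩ := coker_reindex vtx (laplacian M2) (Matrix.of L2) (fun i j => lap2 i j)
  obtain ⟨e1⟩ := torsion_equiv f1
  obtain ⟨e2⟩ := torsion_equiv f2
  have key := two_torsion_card (A := Coker (Matrix.of L1)) (B := Coker (Matrix.of L2))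
    (α := Fin 5 → Fin 2) (β := Fin 6 → Fin 2)
    (fun b => Submodule.Quotient.mk (Gv b)) ?_ (fun b => Submodule.Quotient.mk (Hv b)) ?_ ?_
    ⟨(e1.symm.trans e).trans e2⟩
  · simp at key
  · intro x
    induction x using Submodule.Quotient.induction_on with | _ X =>
    intro hx
    rw [← Submodule.Quotient.mk_smul, Submodule.Quotient.mk_eq_zero] at hx
    obtain ⟨y, hy⟩ := hx
    obtain ⟨b, z, hz⟩ := cover X y (fun i => by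
      have := congrFun hy i
      simp [Matrix.mulVec, dotProduct] at this
      rw [← this])
    refine ⟨b, ?_⟩
    rw [Submodule.Quotient.eq]
    refine ⟨-z, ?_⟩
    funext i
    have := hz i
    simp [Matrix.mulVec, dotProduct]
    rw [this]; ring
  · intro b c hbc
    rw [Submodule.Quotient.eq] at hbc
    obtain ⟨z, hz⟩ := hbc
    refine Hv_inj b c z fun i => ?_
    have := congrFun hz i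
    simp [Matrix.mulVec, dotProduct] at this
    rw [← this]
  · intro b
    rw [← Submodule.Quotient.mk_smul, Submodule.Quotient.mk_eq_zero]
    obtain ⟨z, hz⟩ := two_Hv b
    refine ⟨z, ?_⟩
    funext i
    have := hz i
    simp [Matrix.mulVec, dotProduct]
    rw [← this]

/-- **Main result.** There are generator multisets `M, M'` on `F_2^3`, both with gcd of the
multiplicities equal to `1`, whose Laplacians have the same set of eigenvalues, and even the same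
eigenvalues with multiplicities, but whose sandpile groups are not isomorphic. -/
theorem result : ∃ M M' : Multiset (Vec 3), IsGenerator M ∧ IsGenerator M' ∧
    multGcd M = 1 ∧ multGcd M' = 1 ∧ eigenvalueSet M = eigenvalueSet M' ∧
    spectrum M = spectrum M' ∧ ¬ Nonempty (Sandpile M ≃+ Sandpile M') :=
  ⟨M1, M2, gen1, gen2, gcd1, gcd2, evset, spec, not_iso⟩

end Pool.Agent.Results.MP_f0ff61_co.SameSpectrum
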